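import Mathlib
import Pool.Agent.U209.BX.Stm

set_option autoImplicit false

/-!
# Project BX, package STAGE: composition of chains and one stage of the path
-/

namespace Pool.Agent.U56.BX

open Pool.Agent.U209.BX Complex Finset ComplexConjugate

theorem chainSum_congr {y z : ℕ → ℂ} {J : ℕ} (h : ∀ j, j ≤ J → y j = z j) :
    chainSum y J = chainSum z J := by
  unfold chainSum
  refine Finset.sum_congr rfl fun j hj => ?_
  have hj' := Finset.mem_range.1 hj
  rw [h j hj'.le, h (j + 1) hj']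

theorem chainErr_congr {y z : ℕ → ℂ} {J : ℕ} (h : ∀ j, j ≤ J → y j = z j) :
    chainErr y J = chainErr z J := by
  unfold chainErr
  refine Finset.sum_congr rfl fun j hj => ?_
  have hj' := Finset.mem_range.1 hj
  rw [h j hj'.le, h (j + 1) hj']

theorem chainSum_add (y : ℕ → ℂ) (n m : ℕ) :
    chainSum y (n + m) = chainSum y n + chainSum (fun i => y (n + i)) m := by
  unfold chainSum
  rw [Finset.sum_range_add]
  rfl

theorem chainErr_add (y : ℕ → ℂ) (n m : ℕ) :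
    chainErr y (n + m) = chainErr y n + chainErr (fun i => y (n + i)) m := by
  unfold chainErr
  rw [Finset.sum_range_add]
  rfl

theorem t_TRANS : S_TRANS := by
  rintro a b c r r' δ δ' μ μ' ⟨n, Y, h0, h1, h2, h3, h4, h5, h6⟩ ⟨n', Y', g0, g1, g2, g3, g4, g5, g6⟩
  set Z : ℕ → ℂ := fun j => if j < n then Y j else Y' (j - n) with hZ
  have Z1 : ∀ j, j ≤ n → Z j = Y j := by
    intro j hj
    simp only [hZ]
    split_ifs with h
    · rfl
    · have : j = n := by omega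
      subst this
      rw [Nat.sub_self, g0, h1]
  have Z2 : ∀ i, Z (n + i) = Y' i := by
    intro i
    simp only [hZ]
    rw [if_neg (by omega), Nat.add_sub_cancel_left]
  have S2 : ∀ i, chainSum Z (n + i) = chainSum Y n + chainSum Y' i := by
    intro i
    rw [chainSum_add, chainSum_congr (J := n) Z1, chainSum_congr (J := i) (fun j _ => Z2 j)]
  have E2 : chainErr Z (n + n') = chainErr Y n + chainErr Y' n' := by
    rw [chainErr_add, chainErr_congr (J := n) Z1, chainErr_congr (J := n') (fun j _ => Z2 j)]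
  refine ⟨n + n', Z, ?_, ?_, ?_, ?_, ?_, ?_, ?_⟩
  · rw [Z1 0 (Nat.zero_le _), h0]
  · rw [Z2, g1]
  · intro j hj
    rcases le_or_gt j n with h | h
    · rw [Z1 j h]; exact h2 j h
    · obtain ⟨i, rfl⟩ := Nat.exists_eq_add_of_le h.le
      rw [Z2]; exact g2 i (by omega)
  · intro j hj
    rcases lt_or_ge j n with h | h
    · rw [Z1 j h.le, Z1 (j + 1) h]; exact h3 j h
    · obtain ⟨i, rfl⟩ := Nat.exists_eq_add_of_le h
      rw [Z2, add_assoc, Z2]; exact g3 i (by omega)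
  · intro J hJ
    rcases le_or_gt J n with h | h
    · rw [chainSum_congr (fun j hj => Z1 j (hj.trans h))]
      exact (h4 J h).trans (le_max_left _ _)
    · obtain ⟨i, rfl⟩ := Nat.exists_eq_add_of_le h.le
      rw [S2]
      refine le_trans ?_ (le_max_right _ _)
      have e : chainSum Y n + chainSum Y' i = μ + (chainSum Y n - μ) + chainSum Y' i := by ring
      rw [e]
      refine (norm_add_le _ _).trans (add_le_add ((norm_add_le _ _).trans (add_le_add le_rfl h5)) ?_)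
      exact g4 i (by omega)
  · rw [S2]
    have e : chainSum Y n + chainSum Y' n' - (μ + μ') = (chainSum Y n - μ) + (chainSum Y' n' - μ') := by
      ring
    rw [e]
    exact (norm_add_le _ _).trans (add_le_add h5 g5)
  · rw [E2]
    exact add_le_add h6 g6

theorem mono {a b : ℂ} {r r' δ δ' : ℝ} {μ : ℂ} (h : Link a b r δ μ) (hr : r ≤ r') (hδ : δ ≤ δ') :
    Link a b r' δ' μ := by
  obtain ⟨n, Y, h0, h1, h2, h3, h4, h5, h6⟩ := h
  exact ⟨n, Y, h0, h1, h2, h3, fun J hJ => (h4 J hJ).trans hr, h5.trans hδ, h6.trans hδ⟩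

theorem r_nonneg {a b : ℂ} {r δ : ℝ} {μ : ℂ} (h : Link a b r δ μ) : 0 ≤ r := by
  obtain ⟨n, Y, h0, h1, h2, h3, h4, h5, h6⟩ := h
  exact (norm_nonneg _).trans (h4 0 (Nat.zero_le _))

theorem d_nonneg {a b : ℂ} {r δ : ℝ} {μ : ℂ} (h : Link a b r δ μ) : 0 ≤ δ := by
  obtain ⟨n, Y, h0, h1, h2, h3, h4, h5, h6⟩ := h
  exact (norm_nonneg _).trans h5

theorem mu_le {a b : ℂ} {r δ : ℝ} {μ : ℂ} (h : Link a b r δ μ) : ‖μ‖ ≤ r + δ := by
  obtain ⟨n, Y, h0, h1, h2, h3, h4, h5, h6⟩ := h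
  have e : μ = chainSum Y n - (chainSum Y n - μ) := by ring
  rw [e]
  exact (norm_sub_le _ _).trans (add_le_add (h4 n le_rfl) h5)

theorem t_ITER : S_ITER := by
  intro a n r δ hn hδ h
  induction n with
  | zero => exact absurd hn (lt_irrefl _)
  | succ n ih =>
    rcases Nat.eq_zero_or_pos n with rfl | hn'
    · refine mono (h 0 (by norm_num)) ?_ ?_
      · push_cast; linarith
      · push_cast; linarith
    · have h1 := ih hn' (fun k hk => h k (by omega))
      have h2 := h n (by omega)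
      have h3 := t_TRANS _ _ _ _ _ _ _ _ _ h1 h2
      rw [add_zero] at h3
      refine mono h3 ?_ ?_
      · rw [norm_zero]
        push_cast
        apply max_le
        · linarith
        · linarith
      · push_cast; linarith

/-- composition with a simple bound for the radius -/
theorem tr (hT : S_TRANS) {a b c : ℂ} {r r' δ δ' : ℝ} {μ μ' : ℂ} (h : Link a b r δ μ)
    (h' : Link b c r' δ' μ') : Link a c (r + 2 * δ + r') (δ + δ') (μ + μ') := by
  refine mono (hT _ _ _ _ _ _ _ _ _ h h') ?_ le_rfl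
  have h1 := r_nonneg h
  have h2 := d_nonneg h
  have h3 := mu_le h
  have h4 := r_nonneg h'
  apply max_le
  · linarith
  · linarith

theorem ex_add (a b : ℝ) : ex (a + b) = ex a * ex b := by
  unfold ex; push_cast; rw [← Complex.exp_add]; ring_nf

theorem norm_ex (a : ℝ) : ‖ex a‖ = 1 := by
  unfold ex; exact Complex.norm_exp_ofReal_mul_I a

theorem ex_ne (a : ℝ) : ex a ≠ 0 := by
  unfold ex; exact Complex.exp_ne_zero _

theorem conj_ex (a : ℝ) : conj (ex a) = ex (-a) := by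
  unfold ex
  rw [← Complex.exp_conj, map_mul, Complex.conj_ofReal, Complex.conj_I]
  push_cast; ring_nf

theorem cube (r ψ : ℝ) (hr : 0 < r) :
    ((r : ℂ) * ex ψ) ^ 2 / conj ((r : ℂ) * ex ψ) = r * ex (3 * ψ) := by
  have hr' : (r : ℂ) ≠ 0 := by exact_mod_cast hr.ne'
  rw [map_mul, Complex.conj_ofReal, conj_ex, div_eq_iff (mul_ne_zero hr' (ex_ne _))]
  have e : ex (3 * ψ) * ex (-ψ) = ex ψ ^ 2 := by
    rw [← ex_add, sq, ← ex_add]; congr 1; ring
  linear_combination -(r : ℂ) ^ 2 * e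

theorem rad (hR : S_RAD) (r r' ψ δ : ℝ) (hr : 0 < r) (hr' : 0 < r') (hδ : 0 < δ) :
    Link ((r : ℂ) * ex ψ)⁻¹ ((r' : ℂ) * ex ψ)⁻¹ (|r' - r| + δ) δ (-(ex (3 * ψ)) * (r' - r)) := by
  have hrc : (r : ℂ) ≠ 0 := by exact_mod_cast hr.ne'
  have h := hR ((r : ℂ) * ex ψ) (r' / r) δ (mul_ne_zero hrc (ex_ne _)) (div_pos hr' hr) hδ
  rw [cube r ψ hr] at h
  have e1 : (r : ℂ) * ex ψ * ((r' / r : ℝ) : ℂ) = (r' : ℂ) * ex ψ := by
    push_cast; field_simp
  have e2 : ‖(r : ℂ) * ex ψ‖ * |r' / r - 1| = |r' - r| := by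
    rw [norm_mul, norm_ex, mul_one, Complex.norm_real, Real.norm_eq_abs, ← abs_mul]
    congr 1; field_simp
  have e3 : -((r : ℂ) * ex (3 * ψ)) * (((r' / r : ℝ) : ℂ) - 1) = -(ex (3 * ψ)) * (r' - r) := by
    push_cast; field_simp
  rw [e1, e2, e3] at h
  exact h

theorem rot (hR : S_ROT) (r ψ ψ' δ : ℝ) (hr : 0 < r) (hδ : 0 < δ) :
    Link ((r : ℂ) * ex ψ)⁻¹ ((r : ℂ) * ex ψ')⁻¹ (r * |ψ' - ψ| + δ) δ
      (-(r / 3) * (ex (3 * ψ') - ex (3 * ψ))) := by
  have hrc : (r : ℂ) ≠ 0 := by exact_mod_cast hr.ne'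
  have h := hR ((r : ℂ) * ex ψ) (ψ' - ψ) δ (mul_ne_zero hrc (ex_ne _)) hδ
  rw [cube r ψ hr] at h
  have e1 : (r : ℂ) * ex ψ * ex (ψ' - ψ) = (r : ℂ) * ex ψ' := by
    rw [mul_assoc, ← ex_add]; congr 2; ring
  have e2 : ‖(r : ℂ) * ex ψ‖ = r := by
    rw [norm_mul, norm_ex, mul_one, Complex.norm_real, Real.norm_eq_abs, abs_of_pos hr]
  have e4 : ex (3 * ψ) * ex (3 * (ψ' - ψ)) = ex (3 * ψ') := by
    rw [← ex_add]; congr 1; ring
  have e3 : -((r : ℂ) * ex (3 * ψ)) * ((ex (3 * (ψ' - ψ)) - 1) / 3) =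
      -(r / 3) * (ex (3 * ψ') - ex (3 * ψ)) := by
    linear_combination -(r : ℂ) / 3 * e4
  rw [e1, e2, e3] at h
  exact h

theorem ex_sub_ex (c a : ℝ) : ex (c + a) - ex (c - a) = ex c * (2 * I * Real.sin a) := by
  have h : ex (c - a) = ex c * ex (-a) := by rw [← ex_add]; congr 1
  rw [ex_add, h]
  have e1 : ex a = Real.cos a + Real.sin a * I := by
    unfold ex; rw [Complex.exp_mul_I]; push_cast; ring
  have e2 : ex (-a) = Real.cos a - Real.sin a * I := by
    unfold ex; rw [Complex.exp_mul_I]; push_cast; rw [Complex.cos_neg, Complex.sin_neg]; ring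
  rw [e1, e2]; ring

theorem cycle (hRAD : S_RAD) (hROT : S_ROT) (hT : S_TRANS) (R θ D η : ℝ) (hR : 6 ≤ R)
    (hη : 0 < η) (hη1 : η ≤ 1 / 100) (hD : 0 < D) (hD' : D * R ^ 2 ≤ 0.53) :
    Link ((R : ℂ) * ex θ)⁻¹ ((R : ℂ) * ex (θ + D))⁻¹ 4 (5 * η) 0 := by
  have hDR : D * R ≤ 0.09 := by nlinarith
  have hs0 : 0 ≤ Real.sin (3 * D / 2) := by
    apply Real.sin_nonneg_of_nonneg_of_le_pi (by positivity)
    have := Real.pi_gt_three
    nlinarith
  have hs1 : Real.sin (3 * D / 2) ≤ 3 * D / 2 := Real.sin_le (by positivity)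
  set x : ℝ := R / 2 * Real.sin (3 * D / 2) with hx
  have hx0 : 0 ≤ x := by positivity
  have hx1 : x ≤ 3 / 4 * (D * R) := by
    have : x ≤ R / 2 * (3 * D / 2) := mul_le_mul_of_nonneg_left hs1 (by positivity)
    linarith
  have hx2 : x ≤ 1 := by linarith
  have hxR : x * R ≤ 0.4 := by
    have : x * R ≤ 3 / 4 * (D * R) * R := mul_le_mul_of_nonneg_right hx1 (by positivity)
    nlinarith
  set a : ℝ := Real.arcsin x / 3 with ha
  have hsin : Real.sin (3 * a) = x := by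
    have e : 3 * a = Real.arcsin x := by rw [ha]; ring
    rw [e, Real.sin_arcsin (by linarith) hx2]
  have ha0 : 0 ≤ a := by
    rw [ha]; exact div_nonneg (Real.arcsin_nonneg.2 hx0) (by norm_num)
  have ha1 : 3 * a ≤ 1.6 * x := by
    have e : 3 * a = Real.arcsin x := by rw [ha]; ring
    have h1 : 2 / Real.pi * (3 * a) ≤ Real.sin (3 * a) := by
      apply Real.mul_le_sin (by positivity)
      rw [e]; exact Real.arcsin_le_pi_div_two x
    rw [hsin] at h1
    have hpi := Real.pi_pos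
    have hpi2 : Real.pi < 3.15 := Real.pi_lt_d2
    have h2 : 3 * a = Real.pi / 2 * (2 / Real.pi * (3 * a)) := by field_simp
    rw [h2]
    calc Real.pi / 2 * (2 / Real.pi * (3 * a)) ≤ Real.pi / 2 * x :=
          mul_le_mul_of_nonneg_left h1 (by positivity)
      _ ≤ 1.6 * x := mul_le_mul_of_nonneg_right (by linarith) hx0
  have haR : a * R ≤ 0.22 := by nlinarith
  have ha2 : a ≤ 0.04 := by nlinarith
  have hR0 : 0 < R := by linarith
  have m1 := rot hROT R θ (θ + D / 2 - a) η hR0 hη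
  have m2 := rad hRAD R (R + 1) (θ + D / 2 - a) η hR0 (by linarith) hη
  have m3 := rot hROT (R + 1) (θ + D / 2 - a) (θ + D / 2 + a) η (by linarith) hη
  have m4 := rad hRAD (R + 1) R (θ + D / 2 + a) η (by linarith) hR0 hη
  have m5 := rot hROT R (θ + D / 2 + a) (θ + D) η hR0 hη
  have m := tr hT (tr hT (tr hT (tr hT m1 m2) m3) m4) m5
  have hRa : ∀ t : ℝ, R * |t| = |R * t| := fun t => by rw [abs_mul, abs_of_pos hR0]
  have e1 : R * |θ + D / 2 - a - θ| ≤ 0.3 := by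
    rw [hRa, abs_le]
    constructor <;> nlinarith
  have e2 : |R + 1 - R| = 1 := by rw [add_sub_cancel_left, abs_one]
  have e3 : (R + 1) * |θ + D / 2 + a - (θ + D / 2 - a)| ≤ 0.6 := by
    rw [show θ + D / 2 + a - (θ + D / 2 - a) = 2 * a by ring, abs_of_nonneg (by linarith)]
    nlinarith
  have e4 : |R - (R + 1)| = 1 := by
    rw [show R - (R + 1) = -1 by ring, abs_neg, abs_one]
  have e5 : R * |θ + D - (θ + D / 2 + a)| ≤ 0.3 := by
    rw [show θ + D - (θ + D / 2 + a) = D / 2 - a by ring, hRa, abs_le]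
    constructor <;> nlinarith
  have key : (-((R : ℂ) / 3) * (ex (3 * (θ + D / 2 - a)) - ex (3 * θ)) +
      -(ex (3 * (θ + D / 2 - a))) * (((R + 1 : ℝ) : ℂ) - R) +
      -(((R + 1 : ℝ) : ℂ) / 3) * (ex (3 * (θ + D / 2 + a)) - ex (3 * (θ + D / 2 - a))) +
      -(ex (3 * (θ + D / 2 + a))) * ((R : ℂ) - ((R + 1 : ℝ) : ℂ)) +
      -((R : ℂ) / 3) * (ex (3 * (θ + D)) - ex (3 * (θ + D / 2 + a)))) = 0 := by
    have f1 := ex_sub_ex (3 * (θ + D / 2)) (3 * a)
    have f2 := ex_sub_ex (3 * (θ + D / 2)) (3 * D / 2)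
    rw [show 3 * (θ + D / 2) + 3 * a = 3 * (θ + D / 2 + a) by ring,
      show 3 * (θ + D / 2) - 3 * a = 3 * (θ + D / 2 - a) by ring, hsin] at f1
    rw [show 3 * (θ + D / 2) + 3 * D / 2 = 3 * (θ + D) by ring,
      show 3 * (θ + D / 2) - 3 * D / 2 = 3 * θ by ring] at f2
    have hx' : (x : ℂ) = R / 2 * Real.sin (3 * D / 2) := by rw [hx]; push_cast; ring
    rw [hx'] at f1
    push_cast at f1 f2 ⊢
    linear_combination (2 / 3 : ℂ) * f1 - (R : ℂ) / 3 * f2
  rw [key] at m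
  refine mono m ?_ ?_
  · rw [e2, e4]
    linarith
  · linarith

theorem t_STAGE : S_RAD → S_ROT → S_TRANS → S_ITER → S_STAGE := by
  intro hRAD hROT hT hI n δ hδ
  set r0 : ℝ := (n : ℝ) + 5 with hr0
  set R : ℝ := (n : ℝ) + 6 with hR
  set ψ : ℝ := Real.pi * n / 3 with hψ
  have hn : (0 : ℝ) ≤ (n : ℝ) := Nat.cast_nonneg n
  have hr0p : 0 < r0 := by positivity
  have hR6 : 6 ≤ R := by linarith
  set Kn : ℕ := 2 * (n + 6) ^ 2 with hKn
  have hKnR : (Kn : ℝ) = 2 * R ^ 2 := by rw [hKn, hR]; push_cast; ring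
  have hKn0 : 0 < Kn := by positivity
  have hKn0' : (0 : ℝ) < Kn := by exact_mod_cast hKn0
  set D : ℝ := Real.pi / 3 / Kn with hD
  have hD0 : 0 < D := by have := Real.pi_pos; positivity
  have hDR : D * R ^ 2 ≤ 0.53 := by
    have h1 : D * R ^ 2 = Real.pi / 6 := by
      rw [hD, hKnR]; field_simp; norm_num
    rw [h1]
    have : Real.pi < 3.15 := Real.pi_lt_d2
    linarith
  have hKD : (Kn : ℝ) * D = Real.pi / 3 := by
    rw [hD]; field_simp
  set m0 : ℝ := min δ 1 with hm0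
  have hm0p : 0 < m0 := lt_min hδ one_pos
  set η : ℝ := m0 / (5 * Kn + 100) with hη
  have hηp : 0 < η := by positivity
  have hη' : η * (5 * Kn + 100) = m0 := by rw [hη]; field_simp
  have hm1 : m0 ≤ 1 := min_le_right _ _
  have hm2 : m0 ≤ δ := min_le_left _ _
  have hKη : 0 ≤ (Kn : ℝ) * η := by positivity
  have hη1 : η ≤ 1 / 100 := by nlinarith
  have hr1 : 0 < r0 + 1 / r0 := by positivity
  have A := rad hRAD (r0 + 1 / r0) R ψ η hr1 (by linarith) hηp
  have B := hI (fun k : ℕ => ((R : ℂ) * ex (ψ + k * D))⁻¹) Kn 4 (5 * η) hKn0 (by positivity) (by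
    intro k _
    have h := cycle hRAD hROT hT R (ψ + k * D) D η hR6 hηp hη1 hD0 hDR
    have e : ψ + ((k + 1 : ℕ) : ℝ) * D = ψ + k * D + D := by push_cast; ring
    show Link ((R : ℂ) * ex (ψ + k * D))⁻¹ ((R : ℂ) * ex (ψ + ((k + 1 : ℕ) : ℝ) * D))⁻¹ 4 (5 * η) 0
    rw [e]; exact h)
  simp only [Nat.cast_zero, zero_mul, add_zero] at B
  have M := tr hT A B
  have e3 : ex (3 * ψ) = (-1) ^ n := by
    have : (3 : ℝ) * ψ = n * Real.pi := by rw [hψ]; ring
    rw [this]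
    unfold ex
    push_cast
    rw [mul_assoc, Complex.exp_nat_mul, Complex.exp_pi_mul_I]
  have e1 : W' n = ((r0 + 1 / r0 : ℝ) : ℂ) * ex ψ := by
    unfold W' W
    have hne : ((n : ℂ) + 5) ≠ 0 := by
      have : ((r0 : ℝ) : ℂ) ≠ 0 := by exact_mod_cast hr0p.ne'
      rw [hr0] at this; push_cast at this; exact this
    rw [hψ, hr0]
    push_cast
    field_simp
  have e2 : W (n + 1) = (R : ℂ) * ex (ψ + Kn * D) := by
    unfold W
    rw [hKD, hψ, hR]
    push_cast
    congr 1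
    · ring
    · congr 1; ring
  have e4 : -(ex (3 * ψ)) * ((R : ℂ) - ((r0 + 1 / r0 : ℝ) : ℂ)) + 0 = -(-1) ^ n * (1 - 1 / ((n : ℂ) + 5)) := by
    rw [e3, hR, hr0]; push_cast; ring
  have e5 : |R - (r0 + 1 / r0)| ≤ 1 := by
    have h1 : R - (r0 + 1 / r0) = 1 - 1 / r0 := by rw [hR, hr0]; ring
    rw [h1, abs_le]
    have h2 : 1 / r0 ≤ 1 := by
      rw [div_le_one hr0p]; linarith
    have h3 : 0 < 1 / r0 := by positivity
    constructor <;> linarith
  rw [e4, ← e1, ← e2] at M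
  refine mono M ?_ ?_
  · nlinarith
  · nlinarith

end Pool.Agent.U56.BX
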